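import Pool.Agent.ZGO.StmtsB

/-!
# ZGO, row BMN: the main theorem of part B from its rows
-/

set_option autoImplicit false

namespace Pool.Agent.ZGO.H65

/-- a subgroup of finite index of a subgroup of finite index acts trivially: pass to the group -/
theorem pass {P : Type} [Group P] {X : Type} [AddCommGroup X] (ρ : P →* AddMonoid.End X)
    (H : Subgroup P) (Z : AddSubgroup X) (ρ' : H →* AddMonoid.End Z) (hfi : H.FiniteIndex)
    (hinf : Infinite Z) (hρ : ∀ (h : H) (z : Z), (ρ' h z : X) = ρ h z)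
    (K : Subgroup H) (hK : K.FiniteIndex) (htr : ∀ h ∈ K, ∀ z : Z, ρ' h z = z) :
    ∃ (H : Subgroup P) (Z : AddSubgroup X), H.FiniteIndex ∧ (Z : Set X).Infinite ∧
      ∀ h ∈ H, ∀ z ∈ Z, ρ h z = z := by
  refine ⟨K.map H.subtype, Z, ?_, ?_, ?_⟩
  · refine ⟨?_⟩
    rw [Subgroup.index_map_subtype]
    exact mul_ne_zero hK.index_ne_zero hfi.index_ne_zero
  · exact Set.infinite_coe_iff.mp hinf
  · intro h hh z hz
    obtain ⟨k, hk, rfl⟩ := Subgroup.mem_map.mp hh
    have h1 := hρ k ⟨z, hz⟩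
    rw [htr k hk ⟨z, hz⟩] at h1
    exact h1.symm

theorem bmn (hMIN : MinStmt) (hCUG : CugStmt) (hPRI : PriStmt) (hDIV : DivStmt) (hPER : PerStmt)
    (hONE : OneStmt) (hCYC : CycStmt) (hCTR : CtrStmt) : BmnStmt := by
  intro P _ _ ψ X _ θ ρ htor hS
  obtain ⟨H, Z, ψ', θ', ρ', hfi, hψ', hθ', hρ', hsim⟩ := hMIN P ψ X θ ρ hS
  have hHfg : Group.FG H := inferInstance
  have htH : ∀ g : H, IsOfFinOrder g := by
    intro g
    exact (Submonoid.isOfFinOrder_coe (x := g)).mp (htor g)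
  obtain ⟨p, hp, hcase⟩ := hPRI H ψ' Z θ' ρ' hsim
  rcases hcase with hexp | ⟨hfin, hdv, htors⟩
  · obtain ⟨K, hKfi, hKψ, hKone⟩ := hONE H ψ' Z θ' ρ' hsim
    obtain ⟨ψ'', hψ'', hsim''⟩ := hCUG H ψ' Z θ' ρ' hsim K hKfi hKψ
    have hKfg : Group.FG K := inferInstance
    have htK : ∀ g : K, IsOfFinOrder g := by
      intro g
      exact (Submonoid.isOfFinOrder_coe (x := g)).mp (htH g)
    by_cases hnon : ∃ (g : K) (x : Z), (ρ'.comp K.subtype) g x ≠ x
    · exfalso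
      have hU : Uni p ψ'' θ' (ρ'.comp K.subtype) :=
        { sim := hsim''
          prm := hp
          exp := hexp
          one := fun g j x hx => hKone g g.2 j x hx
          per := hPER K ψ'' Z θ' (ρ'.comp K.subtype) hsim''
          non := hnon }
      obtain ⟨φ, τ, F, M, hC⟩ := hCYC K p ψ'' Z θ' (ρ'.comp K.subtype) hU
      exact hCTR K p φ Z τ (ρ'.comp K.subtype) F M hC htK
    · push Not at hnon
      refine pass ρ H Z ρ' hfi hsim.shf.inf hρ' K hKfi ?_
      intro h hh z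
      exact hnon ⟨h, hh⟩ z
  · obtain ⟨K, hKfi, hKtr⟩ := hDIV H Z ρ' p hp htH hfin hdv htors
    exact pass ρ H Z ρ' hfi hsim.shf.inf hρ' K hKfi hKtr

end Pool.Agent.ZGO.H65
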