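import Pool.Agent.ZGO.StmtsA
import Pool.Agent.Helper27_ZTO.KER

/-!
# ZGO, row LVL: the structure `Lev` exists
-/

set_option autoImplicit false

namespace Pool.Agent.ZGO.H65

open Pool.Agent.ZTO (Ker)

theorem itc {G : Type} [Group G] (ψ : G →* G) (P : Subgroup G) (ψ' : P →* P)
    (h : ∀ g : P, (ψ' g : G) = ψ g) (n : ℕ) (g : P) :
    (((⇑ψ')^[n] g : P) : G) = (⇑ψ)^[n] (g : G) := by
  induction n with
  | zero => rfl
  | succ n ih =>
    rw [Function.iterate_succ_apply', Function.iterate_succ_apply', h, ih]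

theorem lvl (hFTG : FtgStmt) (hIDX : IdxStmt) (hUNB : UnbStmt) : LvlStmt := by
  intro G _ _ ψ hinj hd
  have hK := fun k => Pool.Agent.ZTO.H27.ker G k
  have hFI : ∀ k, (Ker G k).FiniteIndex := fun k => (hK k).2.1
  have hNr : ∀ k, (Ker G k).Normal := fun k => (hK k).1
  have hst : ∀ k, ∀ g ∈ Ker G k, ψ g ∈ Ker G k := fun k => (hK k).2.2.1 ψ
  have hmono : ∀ k l, l ≤ k → Ker G k ≤ Ker G l := fun k => (hK k).2.2.2.2.1
  have hF := fun k => hFTG G ψ (Ker G k) (hNr k) (hFI k) (hst k)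
  have hcs : ∀ k g, g ∈ Cs ψ (Ker G k) ↔ ∃ n, (⇑ψ)^[n] g ∈ Ker G k := fun k => (hF k).1
  have hls : ∀ k g, g ∈ Ls ψ (Ker G k) ↔ ∀ n, ∃ h, ((⇑ψ)^[n] h)⁻¹ * g ∈ Ker G k :=
    fun k => (hF k).2.1
  have hcn : ∀ k, (Cs ψ (Ker G k)).Normal := fun k => (hF k).2.2.1
  have hnc : ∀ k, Ker G k ≤ Cs ψ (Ker G k) := fun k => (hF k).2.2.2.1
  have hnl : ∀ k, Ker G k ≤ Ls ψ (Ker G k) := fun k => (hF k).2.2.2.2.1
  have hnil : ∀ k, ∃ n, ∀ g ∈ Cs ψ (Ker G k), (⇑ψ)^[n] g ∈ Ker G k :=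
    fun k => (hF k).2.2.2.2.2.1
  have hmul : ∀ k g, ∃ c ∈ Cs ψ (Ker G k), ∃ l ∈ Ls ψ (Ker G k), g = c * l :=
    fun k => (hF k).2.2.2.2.2.2.1
  have hdis : ∀ k, ∀ g ∈ Cs ψ (Ker G k), g ∈ Ls ψ (Ker G k) → g ∈ Ker G k :=
    fun k => (hF k).2.2.2.2.2.2.2.1
  have hcps : ∀ k, ∀ g ∈ Cs ψ (Ker G k), ψ g ∈ Cs ψ (Ker G k) :=
    fun k => (hF k).2.2.2.2.2.2.2.2.1
  have hlps : ∀ k, ∀ g ∈ Ls ψ (Ker G k), ψ g ∈ Ls ψ (Ker G k) :=
    fun k => (hF k).2.2.2.2.2.2.2.2.2.1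
  have hbac : ∀ k, ∀ l ∈ Ls ψ (Ker G k), ∃ l' ∈ Ls ψ (Ker G k), l⁻¹ * ψ l' ∈ Ker G k :=
    fun k => (hF k).2.2.2.2.2.2.2.2.2.2
  have hcm : ∀ k l, l ≤ k → Cs ψ (Ker G k) ≤ Cs ψ (Ker G l) := by
    intro k l hl g hg
    obtain ⟨n, hn⟩ := (hcs k g).mp hg
    exact (hcs l g).mpr ⟨n, hmono k l hl hn⟩
  have hlm : ∀ k l, l ≤ k → Ls ψ (Ker G k) ≤ Ls ψ (Ker G l) := by
    intro k l hl g hg
    refine (hls l g).mpr ?_
    intro n
    obtain ⟨h, hh⟩ := (hls k g).mp hg n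
    exact ⟨h, hmono k l hl hh⟩
  obtain ⟨d, hdd⟩ : ∃ d, d = ψ.range.index := ⟨_, rfl⟩
  rw [← hdd] at hd ⊢
  obtain ⟨P, hPd⟩ : ∃ P : Subgroup G, P = Ls ψ (Ker G d) := ⟨_, rfl⟩
  have hKP : Ker G d ≤ P := by
    rw [hPd]
    exact hnl d
  have hPps : ∀ g ∈ P, ψ g ∈ P := by
    rw [hPd]
    exact hlps d
  have hPfi : P.FiniteIndex := by
    have := hFI d
    exact Subgroup.finiteIndex_of_le hKP
  have hlP : ∀ M, Ls ψ (Ker G (M + d)) ≤ P := by
    intro M
    rw [hPd]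
    exact hlm _ _ (Nat.le_add_left d M)
  have hKK : ∀ M, Ker G (M + d) ≤ Ker G d := fun M => hmono _ _ (Nat.le_add_left d M)
  obtain ⟨ψ', hψ'⟩ : ∃ ψ' : P →* P, ∀ g : P, (ψ' g : G) = ψ g :=
    ⟨(ψ.comp P.subtype).codRestrict P (fun x => hPps x x.2), fun g => rfl⟩
  have hit := itc ψ P ψ' hψ'
  have hmem : ∀ (H : Subgroup G) (g : P), g ∈ H.subgroupOf P ↔ (g : G) ∈ H :=
    fun H g => Subgroup.mem_subgroupOf
  refine ⟨P, ψ', fun M => (Ker G (M + d)).subgroupOf P,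
    fun M => (Cs ψ (Ker G (M + d)) ⊓ Ker G d).subgroupOf P,
    fun M => (Ls ψ (Ker G (M + d))).subgroupOf P, hPfi, hψ', ?_⟩
  constructor
  · intro M
    have := hNr (M + d)
    exact inferInstance
  · intro M
    have := hFI (M + d)
    exact inferInstance
  · intro M
    have := hcn (M + d)
    have := hNr d
    exact inferInstance
  · intro M g hg
    rw [hmem] at hg ⊢
    exact ⟨hnc _ hg, hKK M hg⟩
  · intro M g hg
    rw [hmem] at hg ⊢
    exact hnl _ hg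
  · intro M g hg
    rw [hmem] at hg ⊢
    exact hmono _ _ (by omega) hg
  · intro M g hg
    rw [hmem] at hg ⊢
    exact ⟨hcm _ _ (by omega) hg.1, hg.2⟩
  · intro M g hg
    rw [hmem] at hg ⊢
    exact hlm _ _ (by omega) hg
  · intro M g hg
    rw [hmem] at hg ⊢
    rw [hψ']
    exact hst _ _ hg
  · intro M g hg
    rw [hmem] at hg ⊢
    rw [hψ']
    exact ⟨hcps _ _ hg.1, hst _ _ hg.2⟩
  · intro M g hg
    rw [hmem] at hg ⊢
    rw [hψ']
    exact hlps _ _ hg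
  · intro M
    obtain ⟨n, hn⟩ := hnil (M + d)
    refine ⟨n, ?_⟩
    intro g hg
    rw [hmem] at hg ⊢
    rw [hit]
    exact hn _ hg.1
  · intro M g
    obtain ⟨c, hc, l, hl, hg⟩ := hmul (M + d) (g : G)
    have hlP' : l ∈ P := hlP M hl
    have hcP : c ∈ P := by
      have h1 : c = (g : G) * l⁻¹ := by
        rw [hg]
        group
      rw [h1]
      exact P.mul_mem g.2 (P.inv_mem hlP')
    have hcd : c ∈ Ker G d := by
      refine hdis d c (hcm _ _ (Nat.le_add_left d M) hc) ?_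
      rw [← hPd]
      exact hcP
    refine ⟨⟨c, hcP⟩, ?_, ⟨l, hlP'⟩, ?_, ?_⟩
    · rw [hmem]
      exact ⟨hc, hcd⟩
    · rw [hmem]
      exact hl
    · exact Subtype.ext hg
  · intro M g hg hg'
    rw [hmem] at hg hg' ⊢
    exact hdis _ _ hg.1 hg'
  · intro M b hb
    rw [hmem] at hb
    obtain ⟨l', hl', hbl⟩ := hbac (M + d) _ hb
    refine ⟨⟨l', hlP M hl'⟩, ?_, ?_⟩
    · rw [hmem]
      exact hl'
    · rw [hmem, Subgroup.coe_mul, Subgroup.coe_inv, hψ']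
      exact hbl
  · intro k M0
    obtain ⟨M, hM, hk⟩ := hUNB G ψ hinj (by rw [← hdd]; exact hd) (Ker G d) (hFI d) k (M0 + d)
    refine ⟨M - d, by omega, ?_⟩
    have h1 : M - d + d = M := by omega
    beta_reduce
    rw [h1, Subgroup.relIndex_subgroupOf (le_trans inf_le_right hKP)]
    exact hk
  · intro M i a ha g hg
    rw [hmem] at ha hg ⊢
    rw [hit] at hg ⊢
    have hne : ψ.range.index ≠ 0 := by
      rw [← hdd]
      omega
    have h4 := ((hIDX G ψ hinj hne).2 (Ker G (M + d)) (hNr _) (hFI _) (hst _)).2.2 i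
    rw [← hdd] at h4
    have hn1 : ((Ker G (M + d)).comap (itr ψ (i + 1))).Normal := by
      have := hNr (M + d)
      exact inferInstance
    have hn2 : ((Ker G (M + d)).comap (itr ψ i)).Normal := by
      have := hNr (M + d)
      exact inferInstance
    have hle : (Ker G (M + d)).comap (itr ψ i) ≤ (Ker G (M + d)).comap (itr ψ (i + 1)) := by
      intro x hx
      rw [Subgroup.mem_comap, itr_apply] at hx ⊢
      rw [Function.iterate_succ_apply']
      exact hst _ _ hx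
    have h7 := (hK d).2.2.2.2.2.2 _ _ hle hn1 hn2 h4.2 h4.1 (a : G) ha.2 (g : G) (by
      rw [Subgroup.mem_comap, itr_apply]
      exact hg)
    rw [Subgroup.mem_comap, itr_apply] at h7
    simpa only [Subgroup.coe_mul, Subgroup.coe_inv] using h7
  · intro M
    have hne : ψ.range.index ≠ 0 := by
      rw [← hdd]
      omega
    have h3 := ((hIDX G ψ hinj hne).2 (Ker G (M + d)) (hNr _) (hFI _) (hst _)).2.1
    rw [← hdd] at h3
    have h1 : ((Ker G (M + d)).subgroupOf P).comap ψ' =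
        ((Ker G (M + d)).comap ψ ⊓ P).subgroupOf P := by
      ext x
      rw [Subgroup.mem_comap, hmem, hmem, hψ', Subgroup.mem_inf, Subgroup.mem_comap]
      exact ⟨fun h => ⟨h, x.2⟩, fun h => h.1⟩
    beta_reduce
    rw [h1, Subgroup.relIndex_subgroupOf inf_le_right]
    refine le_trans (Subgroup.relIndex_le_of_le_right inf_le_left ?_) h3
    intro h0
    have h5 : (Ker G (M + d)).relIndex ((Ker G (M + d)).comap ψ) ∣ (Ker G (M + d)).index :=
      Subgroup.relIndex_dvd_index_of_le (by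
        intro x hx
        rw [Subgroup.mem_comap]
        exact hst _ _ hx)
    rw [h0, zero_dvd_iff] at h5
    exact (hFI (M + d)).index_ne_zero h5
  · have h1 : ψ'.range = (P.map ψ).subgroupOf P := by
      ext x
      rw [hmem, MonoidHom.mem_range, Subgroup.mem_map]
      constructor
      · rintro ⟨y, hy⟩
        refine ⟨y, y.2, ?_⟩
        rw [← hψ', hy]
      · rintro ⟨y, hy, hyx⟩
        refine ⟨⟨y, hy⟩, Subtype.ext ?_⟩
        rw [hψ']
        exact hyx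
    rw [h1]
    have h2 : (P.map ψ).FiniteIndex := by
      refine ⟨?_⟩
      rw [Subgroup.index_map]
      refine mul_ne_zero ?_ ?_
      · have : (P ⊔ ψ.ker).FiniteIndex := Subgroup.finiteIndex_of_le (H := P) le_sup_left
        exact this.index_ne_zero
      · rw [← hdd]
        omega
    exact inferInstance

end Pool.Agent.ZGO.H65
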